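import Pool.Agent.Helper351.FO.B1
import Pool.Agent.Helper351.FO.FC

set_option autoImplicit false

namespace Pool.Agent.Results.MP_f3e693_al.Reduction

open Pool.Agent.Results.MP_611b97_al.Extend
open Pool.Agent.Helper351.FO
open scoped commutatorElement

/-- `G ⧸ H` is periodic. -/
def PeriodicMod {G : Type} [Group G] (H : Subgroup G) : Prop :=
  ∀ g : G, ∃ n : ℕ, 1 ≤ n ∧ g ^ n ∈ H

/-- `G ⧸ H` is an Engel group (`[z, y] = z⁻¹ y⁻¹ z y`). -/
def EngelMod {G : Type} [Group G] (H : Subgroup G) : Prop :=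
  ∀ x y : G, ∃ n : ℕ, (fun z => z⁻¹ * y⁻¹ * z * y)^[n] x ∈ H

/-- Every `G`-invariant order on `H` extends to a bi-invariant total order of `G`. -/
def AllExtend {G : Type} [Group G] (H : Subgroup G) : Prop :=
  ∀ P : Set G, IsInvCone H P → Extends H P

/-- `(R ∩ [F,F]) / [R,F]` is a torsion group (for `F` free this is `H₂(F ⧸ R, ℤ)` by
Hopf's formula, so the condition says `H₂(F ⧸ R, ℚ) = 0`). -/
def HopfTorsion {F : Type} [Group F] (R : Subgroup F) : Prop :=
  ∀ r ∈ R ⊓ ⁅(⊤ : Subgroup F), (⊤ : Subgroup F)⁆, ∃ n : ℕ, 1 ≤ n ∧ r ^ n ∈ ⁅R, (⊤ : Subgroup F)⁆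

/-- the map of the free group of rank two with values `a`, `b` -/
def two {G : Type} [Group G] (a b : G) : FreeGroup (Fin 2) →* G := FreeGroup.lift ![a, b]

lemma two_range {G : Type} [Group G] (a b : G) : (two a b).range = Subgroup.closure {a, b} := by
  rw [two, FreeGroup.range_lift_eq_closure]
  congr 1
  simp [Matrix.range_cons, Set.pair_comm]

lemma iter_map {F G : Type} [Group F] [Group G] (φ : F →* G) (y : F) (n : ℕ) : ∀ x : F,
    φ ((fun z => z⁻¹ * y⁻¹ * z * y)^[n] x) = (fun z => z⁻¹ * (φ y)⁻¹ * z * φ y)^[n] (φ x) := by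
  induction n with
  | zero => intro x; rfl
  | succ n ih => intro x; rw [Function.iterate_succ_apply, ih, Function.iterate_succ_apply]; simp

/-- transfer of the condition to the subgroup generated by `a`, `b` -/
lemma transfer {G : Type} [Group G] (H : Subgroup G) (a b : G)
    (h : HopfTorsion (H.comap (two a b))) :
    ∀ r ∈ H ⊓ ⁅Subgroup.closure {a, b}, Subgroup.closure {a, b}⁆,
      ∃ n : ℕ, 1 ≤ n ∧ r ^ n ∈ ⁅H ⊓ Subgroup.closure {a, b}, Subgroup.closure {a, b}⁆ := by
  rintro r ⟨hrH, hrc⟩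
  have e1 : ⁅Subgroup.closure {a, b}, Subgroup.closure {a, b}⁆
      = Subgroup.map (two a b) ⁅(⊤ : Subgroup (FreeGroup (Fin 2))), (⊤ : Subgroup (FreeGroup (Fin 2)))⁆ := by
    rw [Subgroup.map_commutator, ← MonoidHom.range_eq_map, two_range]
  have e2 : ⁅H ⊓ Subgroup.closure {a, b}, Subgroup.closure {a, b}⁆
      = Subgroup.map (two a b) ⁅H.comap (two a b), (⊤ : Subgroup (FreeGroup (Fin 2)))⁆ := by
    rw [Subgroup.map_commutator, ← MonoidHom.range_eq_map, two_range, Subgroup.map_comap_eq,
      two_range, inf_comm]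
  have hrc' : r ∈ ⁅Subgroup.closure {a, b}, Subgroup.closure {a, b}⁆ := hrc
  rw [e1] at hrc'
  obtain ⟨c, hc, rfl⟩ := hrc'
  obtain ⟨n, hn, h1⟩ := h c ⟨hrH, hc⟩
  refine ⟨n, hn, ?_⟩
  rw [e2]
  exact ⟨c ^ n, h1, by rw [map_pow]⟩

lemma free_tf (α : Type) (g : FreeGroup α) (n : ℕ) (hn : 1 ≤ n) (h : g ^ n = 1) : g = 1 := by
  obtain ⟨P, hmul, h1, htot, _⟩ := free_cone α
  by_contra hg
  have key : ∀ x ∈ P, ∀ k : ℕ, x ^ (k + 1) ∈ P := by
    intro x hx k
    induction k with
    | zero => simpa using hx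
    | succ k ih => rw [pow_succ]; exact hmul _ ih _ hx
  obtain ⟨k, rfl⟩ : ∃ k, n = k + 1 := ⟨n - 1, by omega⟩
  rcases htot g hg with h2 | h2
  · have := key g h2 k
    rw [h] at this; exact h1 this
  · have := key _ h2 k
    rw [inv_pow, h, inv_one] at this; exact h1 this

/-- sufficiency: torsion-free group, periodic quotient, condition for all pairs -/
theorem suff {G : Type} [Group G] (H : Subgroup G) [H.Normal]
    (htf : ∀ g : G, ∀ n : ℕ, 1 ≤ n → g ^ n = 1 → g = 1) (hper : PeriodicMod H)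
    (h : ∀ a b : G, HopfTorsion (H.comap (two a b))) : AllExtend H := by
  intro P hP
  exact extends_of_H2 hP htf hper (fun a b => transfer H a b (h a b))

/-- necessity -/
theorem nec (α : Type) (H : Subgroup (FreeGroup α)) [H.Normal] (hper : PeriodicMod H)
    (h : AllExtend H) : HopfTorsion H := by
  obtain ⟨P0, hmul, h1, htot, hconj⟩ := free_cone α
  exact H2_of_extends H hper P0 hmul h1 htot hconj h

/-- Let `F` be a free group.
(1) The following are equivalent: (a) Q1 of the problem; (b) the statement of Q1 with `F` replaced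
by an arbitrary torsion-free group; (c) for every normal subgroup `R` of the free group `F₂` of
rank two with `F₂ ⧸ R` periodic and Engel, `(R ∩ [F₂,F₂]) / [R,F₂]` is a torsion group.
(2) For one group: if `G` is torsion-free, `G ⧸ H` is periodic (Engel or not) and for all `a, b`
in `G` the preimage `R` of `H` in `F₂` satisfies the condition in (c), then all `G`-invariant
orders on `H` extend.
(3) For one free group and one `H` with `F ⧸ H` periodic: if all `F`-invariant orders on `H`
extend, then `(H ∩ [F,F]) / [H,F]` is a torsion group.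
(4) If `F ⧸ H` is periodic and all its 2-generated subgroups are soluble, then all
`F`-invariant orders on `H` extend.
(5) If `F ⧸ H` is periodic and Engel, then every `F`-invariant order on `H` without infinite
strictly descending chains of convex subgroups extends. -/
theorem result :
    (((∀ (α : Type) (H : Subgroup (FreeGroup α)), H.Normal → PeriodicMod H → EngelMod H →
        AllExtend H) ↔
      (∀ (G : Type) (_ : Group G), (∀ g : G, g ≠ 1 → ¬ IsOfFinOrder g) →
        ∀ H : Subgroup G, H.Normal → PeriodicMod H → EngelMod H → AllExtend H)) ∧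
     ((∀ (α : Type) (H : Subgroup (FreeGroup α)), H.Normal → PeriodicMod H → EngelMod H →
        AllExtend H) ↔
      (∀ R : Subgroup (FreeGroup (Fin 2)), R.Normal → PeriodicMod R → EngelMod R →
        HopfTorsion R))) ∧
    (∀ (G : Type) (_ : Group G), (∀ g : G, g ≠ 1 → ¬ IsOfFinOrder g) →
      ∀ H : Subgroup G, H.Normal → PeriodicMod H →
        (∀ a b : G, HopfTorsion (H.comap (FreeGroup.lift ![a, b]))) → AllExtend H) ∧
    (∀ (α : Type) (H : Subgroup (FreeGroup α)), H.Normal → PeriodicMod H → AllExtend H →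
      HopfTorsion H) ∧
    (∀ (α : Type) (H : Subgroup (FreeGroup α)) (_ : H.Normal), PeriodicMod H →
      (∀ a b : FreeGroup α ⧸ H, Group.IsSolvable (Subgroup.closure {a, b})) → AllExtend H) ∧
    (∀ (α : Type) (H : Subgroup (FreeGroup α)), H.Normal → PeriodicMod H → EngelMod H →
      ∀ P : Set (FreeGroup α), IsInvCone H P →
        (¬ ∃ f : ℕ → Subgroup (FreeGroup α), ∀ n, IsConvex H P (f n) ∧ f (n+1) < f n) →
        Extends H P) := by
  have tf : ∀ (G : Type) (_ : Group G), (∀ g : G, g ≠ 1 → ¬ IsOfFinOrder g) →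
      ∀ g : G, ∀ n : ℕ, 1 ≤ n → g ^ n = 1 → g = 1 := by
    intro G _ htf g n hn h
    by_contra hg
    exact htf g hg (isOfFinOrder_iff_pow_eq_one.mpr ⟨n, hn, h⟩)
  have free_tf' : ∀ (α : Type) (g : FreeGroup α), g ≠ 1 → ¬ IsOfFinOrder g := by
    intro α g hg h
    obtain ⟨n, hn, h⟩ := isOfFinOrder_iff_pow_eq_one.mp h
    exact hg (free_tf α g n hn h)
  -- (a) ⇒ (c)
  have hac : (∀ (α : Type) (H : Subgroup (FreeGroup α)), H.Normal → PeriodicMod H → EngelMod H →
        AllExtend H) →
      (∀ R : Subgroup (FreeGroup (Fin 2)), R.Normal → PeriodicMod R → EngelMod R →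
        HopfTorsion R) := by
    intro h R hR hp hE
    have := hR
    exact nec (Fin 2) R hp (h (Fin 2) R hR hp hE)
  -- (c) ⇒ (b)
  have hcb : (∀ R : Subgroup (FreeGroup (Fin 2)), R.Normal → PeriodicMod R → EngelMod R →
        HopfTorsion R) →
      (∀ (G : Type) (_ : Group G), (∀ g : G, g ≠ 1 → ¬ IsOfFinOrder g) →
        ∀ H : Subgroup G, H.Normal → PeriodicMod H → EngelMod H → AllExtend H) := by
    intro h G _ htf H hH hp hE
    have := hH
    refine suff H (tf G _ htf) hp ?_
    intro a b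
    refine h _ (hH.comap (two a b)) ?_ ?_
    · intro g
      obtain ⟨n, hn, h1⟩ := hp (two a b g)
      refine ⟨n, hn, ?_⟩
      rw [Subgroup.mem_comap, map_pow]; exact h1
    · intro x y
      obtain ⟨n, h1⟩ := hE (two a b x) (two a b y)
      refine ⟨n, ?_⟩
      rw [Subgroup.mem_comap, iter_map]; exact h1
  -- (b) ⇒ (a)
  have hba : (∀ (G : Type) (_ : Group G), (∀ g : G, g ≠ 1 → ¬ IsOfFinOrder g) →
        ∀ H : Subgroup G, H.Normal → PeriodicMod H → EngelMod H → AllExtend H) →
      (∀ (α : Type) (H : Subgroup (FreeGroup α)), H.Normal → PeriodicMod H → EngelMod H →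
        AllExtend H) := by
    intro h α H hH hp hE
    exact h (FreeGroup α) _ (free_tf' α) H hH hp hE
  refine ⟨⟨⟨fun h => hcb (hac h), hba⟩, ⟨hac, fun h => hba (hcb h)⟩⟩, ?_, ?_, ?_, ?_⟩
  · intro G _ htf H hH hp h
    have := hH
    exact suff H (tf G _ htf) hp h
  · intro α H hH hp h
    have := hH
    exact nec α H hp h
  · intro α H hH hp hs P hP
    have := hH
    refine extends_of_closed hP (free_tf α) hp ?_
    intro a ha b hb
    exact closed_of_soluble hP (free_tf α) hp _ (hs (a : FreeGroup α ⧸ H) (b : FreeGroup α ⧸ H))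
      ha hb (Subgroup.subset_closure (by simp)) (Subgroup.subset_closure (by simp))
  · intro α H hH hp hE P hP hwf
    have := hH
    exact wf_case hP (free_tf α) hp hE hwf

end Pool.Agent.Results.MP_f3e693_al.Reduction
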